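import Mathlib
import Pool.Agent.R366.HF.Box
import Pool.Agent.R366.HF.Pert

set_option autoImplicit false

/-!
# Integral points on almost all plane curves in every box

Let `d ≥ 2` and let `N = (d + 1)(d + 2) / 2` be the number of monomials `x^i y^j` of degree at most
`d`. We consider the polynomials `f` with integral coefficients of degree at most `d` whose
coefficients differ by at most `H` from those of a given polynomial `a`. The centre `a` of the box is
ARBITRARY, its coefficients may be much larger than `H`.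

1. The `f` in the box with `x^d` and `y^d` have altogether at most
   `C (H X)^ε H^N (H^(-1/2) + H^(-(d+1)/2) X)` integral zeros `(x, y)` with `min(|x|, |y|) ≤ X`.
2. All `f` in the box with at most `C H^(N - η)` exceptions (`η = η(d, δ) > 0`) have no integral zero
   `(x, y)` at all with `min(|x|, |y|) ≤ H^((d+1)/2 - δ)`.
3. Let `F(x, y)` be ANY polynomial with integral coefficients, of degree at most `e` in `y`. The
   curves `F(x, y) = h(x)`, `h` running through the polynomials of degree at most `k` with coefficients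
   of absolute value at most `H`, have altogether at most
   `C (H X)^ε (H^(k+1/2) + H^((k+1)/2) X)` integral points with `|x| ≤ X` (only the `x` for which
   `F(x, ·)` has degree at least two are counted).

The constants depend on `d`, `ε`, `δ`, `k`, `e` only, not on `a` or `F`.

Method: if `|x| > 2 H` then the values `h(x)` of the small polynomials `h` are distinct, and the
difference of two of them which are values of the polynomial `F(x, ·)` is a nonzero integer which is
divisible by the difference of the arguments, so that there are few such pairs.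
-/

namespace Pool.Agent.Results.MP_2d259b_nt.IntegralPointsInEveryBox

open Polynomial
open scoped Polynomial.Bivariate

/-- the exponents `(i, j)`, `i + j ≤ d`, of the monomials of degree at most `d` -/
abbrev Monomials (d : ℕ) : Type := {m : Fin (d + 1) × Fin (d + 1) // (m.1 : ℕ) + (m.2 : ℕ) ≤ d}

/-- the value at `(x, y)` of the polynomial with the coefficients `c` -/
def value {d : ℕ} (c : Monomials d → ℤ) (x y : ℤ) : ℤ :=
  ∑ m : Monomials d, c m * x ^ (m.1.1 : ℕ) * y ^ (m.1.2 : ℕ)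

/-- `f` is in the box of side `2 H` with the centre `a` -/
def InBox {d : ℕ} (a : Monomials d → ℤ) (H : ℝ) (c : Monomials d → ℤ) : Prop :=
  ∀ m, |((c m - a m : ℤ) : ℝ)| ≤ H

/-- the tuples `(c, x, y)`: `c` is the coefficient vector of a polynomial in the box in which `x^d`
and `y^d` have nonzero coefficients, and `(x, y)` is an integral zero with `min(|x|, |y|) ≤ X` -/
def Points {d : ℕ} (a : Monomials d → ℤ) (H X : ℝ) : Set ((Monomials d → ℤ) × ℤ × ℤ) :=
  {p | InBox a H p.1 ∧ (∀ m : Monomials d, ((m.1.1 : ℕ) = d ∨ (m.1.2 : ℕ) = d) → p.1 m ≠ 0) ∧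
    min |(p.2.1 : ℝ)| |(p.2.2 : ℝ)| ≤ X ∧ value p.1 p.2.1 p.2.2 = 0}

/-- the polynomials in the box with an integral zero `(x, y)`, `min(|x|, |y|) ≤ X` -/
def WithPoint {d : ℕ} (a : Monomials d → ℤ) (H X : ℝ) : Set (Monomials d → ℤ) :=
  {c | InBox a H c ∧ ∃ x y : ℤ, min |(x : ℝ)| |(y : ℝ)| ≤ X ∧ value c x y = 0}

/-- the tuples `(c, x, y)`: `c` is the coefficient vector of a polynomial `h = ∑ c_i T^i` of degree at
most `k` with `|c_i| ≤ H`, and `(x, y)` is an integral point of the curve `F(x, y) = h(x)` with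
`|x| ≤ X` for which `F(x, ·)` has degree at least two -/
def PerturbedPoints (k : ℕ) (F : ℤ[X][Y]) (H X : ℝ) : Set ((Fin (k + 1) → ℤ) × ℤ × ℤ) :=
  {p | (∀ i, |(p.1 i : ℝ)| ≤ H) ∧ |(p.2.1 : ℝ)| ≤ X ∧
    2 ≤ (F.map (evalRingHom p.2.1)).natDegree ∧
    F.evalEval p.2.1 p.2.2 = ∑ i : Fin (k + 1), p.1 i * p.2.1 ^ (i : ℕ)}

/-- **Integral points on almost all plane curves in every box.** -/
theorem result :
    (∀ d : ℕ, 2 ≤ d → ∀ ε : ℝ, 0 < ε → ∃ C : ℝ, ∀ (a : Monomials d → ℤ) (H X : ℝ), 1 ≤ H → 1 ≤ X →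
      (Points a H X).Finite ∧ ((Points a H X).ncard : ℝ) ≤
        C * (H * X) ^ ε * H ^ (Fintype.card (Monomials d)) *
          (H ^ (-(1 / 2) : ℝ) + H ^ (-((d : ℝ) + 1) / 2) * X)) ∧
    (∀ d : ℕ, 2 ≤ d → ∀ δ : ℝ, 0 < δ → ∃ η : ℝ, 0 < η ∧ ∃ C : ℝ,
      ∀ (a : Monomials d → ℤ) (H : ℝ), 1 ≤ H →
      (WithPoint a H (H ^ (((d : ℝ) + 1) / 2 - δ))).Finite ∧
      ((WithPoint a H (H ^ (((d : ℝ) + 1) / 2 - δ))).ncard : ℝ) ≤
        C * H ^ ((Fintype.card (Monomials d) : ℝ) - η)) ∧
    (∀ k e : ℕ, 2 ≤ k → ∀ ε : ℝ, 0 < ε → ∃ C : ℝ, ∀ F : ℤ[X][Y], F.natDegree ≤ e →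
      ∀ H X : ℝ, 1 ≤ H → 1 ≤ X →
      (PerturbedPoints k F H X).Finite ∧ ((PerturbedPoints k F H X).ncard : ℝ) ≤
        C * (H * X) ^ ε * (H ^ ((k : ℝ) + 1 / 2) + H ^ (((k : ℝ) + 1) / 2) * X)) := by
  refine ⟨fun d hd ε hε => ?_, fun d hd δ hδ => ?_, fun k e hk ε hε => ?_⟩
  · obtain ⟨K, -, h⟩ := Pool.Agent.R366.HF.box d hd hε
    refine ⟨K, fun a H X hH hX => ?_⟩
    apply Pool.Agent.R366.HE.finite_of_card
    intro T hT
    refine h a H X hH hX T fun p hp => ?_
    obtain ⟨g1, g2, g3, g4⟩ := hT hp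
    refine ⟨g1, g2 _ (Or.inl (by simp [Pool.Agent.R366.HF.ux])),
      g2 _ (Or.inr (by simp [Pool.Agent.R366.HF.my])), min_le_iff.1 g3, g4⟩
  · obtain ⟨η, hη, K, -, h⟩ := Pool.Agent.R366.HF.almost d hd hδ
    refine ⟨η, hη, K, fun a H hH => ?_⟩
    apply Pool.Agent.R366.HE.finite_of_card
    intro T hT
    refine h a H hH T fun c hc => ?_
    obtain ⟨g1, x, y, g2, g3⟩ := hT hc
    exact ⟨g1, x, y, min_le_iff.1 g2, g3⟩
  · obtain ⟨K, -, h⟩ := Pool.Agent.R366.HF.pert k e hk hε
    refine ⟨K, fun F hF H X hH hX => ?_⟩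
    apply Pool.Agent.R366.HE.finite_of_card
    intro T hT
    exact h F hF H X hH hX T fun p hp => hT hp

end Pool.Agent.Results.MP_2d259b_nt.IntegralPointsInEveryBox
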