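import Pool.Agent.R414.DV.Fl

/-!
# The limit law of the integer point of a random curve

Let `F₀` be a polynomial of degree `d ≥ 10` whose leading form is irreducible over `ℚ`. Among the
curves `F₀ + R = 0`, where `R` has degree less than `d` and integer coefficients in `[-H, H]`, the
number of those with an integer point is `(κ + o(1)) (2 H + 1) ^ (d (d + 1) / 2 - 1)`; for the
proportion `1 - o(1)` of the latter the integer point is unique, and it is distributed according to
an explicit law on `ℤ ^ 2`, which depends on `d` only.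
-/

set_option autoImplicit false

open Filter Topology MeasureTheory

namespace Pool.Agent.Results.MP_2d259b_nt.LimitLaw

/-- the exponents `(i, j)` of the nonconstant monomials of degree less than `d` -/
abbrev Mon (d : ℕ) : Type :=
  {p : Fin d × Fin d // 0 < p.1.val + p.2.val ∧ p.1.val + p.2.val < d}

/-- the volume of the set of the points `u` of the cube `[-1/2, 1/2] ^ Mon` with
`|∑ u_(i,j) x ^ i y ^ j| ≤ 1/2` -/
noncomputable def law (d : ℕ) (P : ℤ × ℤ) : ℝ :=
  volume.real {u : Mon d → ℝ | (∀ p, |u p| ≤ 1 / 2) ∧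
    |∑ p, u p * ((P.1 : ℝ) ^ p.1.1.val * (P.2 : ℝ) ^ p.1.2.val)| ≤ 1 / 2}

/-- the number of the polynomials `R` of degree at most `d - 1` with coefficients in `[-H, H]` and with
the property `Q` -/
noncomputable def count (d H : ℕ) (Q : MvPolynomial (Fin 2) ℤ → Prop) : ℝ :=
  (Set.ncard {R : MvPolynomial (Fin 2) ℤ | R.totalDegree ≤ d - 1 ∧ (∀ m, |R.coeff m| ≤ (H : ℤ)) ∧
    Q R} : ℝ)

/-- the integer points of the curve `F = 0` -/
def Z (F : MvPolynomial (Fin 2) ℤ) : Set (ℤ × ℤ) := {P | MvPolynomial.eval ![P.1, P.2] F = 0}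

open Pool.Agent.R414.DN Pool.Agent.R414.DV

lemma law_eq (e : ℕ) (P : ℤ × ℤ) :
    law (e + 1) P = volume.real (slab (mono (e + 1) P.1 P.2)) := by
  unfold law slab mono
  push_cast
  rfl

theorem result (d : ℕ) (hd : 10 ≤ d) : (∀ P, 0 < law d P) ∧
    ∀ F₀ : MvPolynomial (Fin 2) ℤ, F₀.totalDegree ≤ d →
    Irreducible (MvPolynomial.map (Int.castRingHom ℚ)
      (MvPolynomial.homogeneousComponent d F₀)) →
    Summable (law d) ∧
    Tendsto (fun H : ℕ => count d H (fun R => (Z (F₀ + R)).Nonempty) /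
      (2 * (H : ℝ) + 1) ^ (d * (d + 1) / 2 - 1)) atTop (𝓝 (∑' P, law d P)) ∧
    (∀ B : Set (ℤ × ℤ), Tendsto (fun H : ℕ => count d H (fun R => (Z (F₀ + R) ∩ B).Nonempty) /
      count d H (fun R => (Z (F₀ + R)).Nonempty)) atTop
      (𝓝 ((∑' P, B.indicator (law d) P) / ∑' P, law d P))) ∧
    Tendsto (fun H : ℕ => count d H (fun R => ∃ P, Z (F₀ + R) = {P}) /
      count d H (fun R => (Z (F₀ + R)).Nonempty)) atTop (𝓝 1) := by
  classical
  obtain ⟨e, rfl⟩ : ∃ e, d = e + 1 := ⟨d - 1, by omega⟩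
  have hlaw : law (e + 1) = fun P : ℤ × ℤ => volume.real (slab (mono (e + 1) P.1 P.2)) := by
    funext P
    exact law_eq e P
  have hpos : ∀ P, 0 < law (e + 1) P := by
    intro P
    rw [law_eq]
    exact slab_pos _
  refine ⟨hpos, fun F₀ hF hirr => ?_⟩
  obtain ⟨h1, h2, h3⟩ := main_law (by omega : 9 ≤ e) hF hirr
  rw [← hlaw] at h1
  have hκ : 0 < ∑' P, law (e + 1) P := by
    exact h1.tsum_pos (fun P => (hpos P).le) (0, 0) (hpos _)
  obtain ⟨n, hn⟩ : ∃ n, n = MM e - 1 := ⟨_, rfl⟩
  have hn' : (e + 1) * (e + 1 + 1) / 2 - 1 = n := by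
    rw [hn, MM_eq]
  have hcount : ∀ (H : ℕ) (Q : MvPolynomial (Fin 2) ℤ → Prop), count (e + 1) H Q =
      (((ibox ↥(I e) H).filter fun a => Q (poly a)).card : ℝ) := by
    intro H Q
    unfold count
    have e0 : e + 1 - 1 = e := rfl
    rw [e0, ncard_box e H Q]
  have hX : ∀ H : ℕ, (0 : ℝ) < (2 * (H : ℝ) + 1) ^ n := fun H => by positivity
  -- all sets
  have hB : ∀ B : Set (ℤ × ℤ), Tendsto (fun H : ℕ =>
      count (e + 1) H (fun R => (Z (F₀ + R) ∩ B).Nonempty) / (2 * (H : ℝ) + 1) ^ n) atTop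
      (𝓝 (∑' P, B.indicator (law (e + 1)) P)) := by
    intro B
    have h4 := h2 B
    rw [← hlaw, ← hn] at h4
    refine h4.congr fun H => ?_
    rw [hcount]
    congr 2
    apply congrArg Finset.card
    ext a
    rw [Finset.mem_filter, Finset.mem_filter]
    constructor
    · rintro ⟨ha, P, hP, hz⟩
      exact ⟨ha, P, hz, hP⟩
    · rintro ⟨ha, P, hz, hP⟩
      exact ⟨ha, P, hP, hz⟩
  have hall : Tendsto (fun H : ℕ => count (e + 1) H (fun R => (Z (F₀ + R)).Nonempty) /
      (2 * (H : ℝ) + 1) ^ n) atTop (𝓝 (∑' P, law (e + 1) P)) := by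
    have h4 := hB Set.univ
    rw [Set.indicator_univ] at h4
    refine h4.congr fun H => ?_
    simp only [Set.inter_univ]
  rw [hn']
  refine ⟨h1, hall, fun B => ?_, ?_⟩
  · have h4 := (hB B).div hall hκ.ne'
    refine h4.congr fun H => ?_
    exact div_div_div_cancel_right₀ (hX H).ne' _ _
  · -- uniqueness
    have h5 : ∀ H : ℕ, count (e + 1) H (fun R => (Z (F₀ + R)).Nonempty) =
        count (e + 1) H (fun R => ∃ P, Z (F₀ + R) = {P}) +
        (((ibox ↥(I e) H).filter fun a => ∃ P Q : ℤ × ℤ, P ≠ Q ∧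
          MvPolynomial.eval ![P.1, P.2] (F₀ + poly a) = 0 ∧
          MvPolynomial.eval ![Q.1, Q.2] (F₀ + poly a) = 0).card : ℝ) := by
      intro H
      rw [hcount, hcount]
      have h6 : ((ibox ↥(I e) H).filter fun a => (Z (F₀ + poly a)).Nonempty) =
          ((ibox ↥(I e) H).filter fun a => ∃ P, Z (F₀ + poly a) = {P}) ∪
          ((ibox ↥(I e) H).filter fun a => ∃ P Q : ℤ × ℤ, P ≠ Q ∧
          MvPolynomial.eval ![P.1, P.2] (F₀ + poly a) = 0 ∧
          MvPolynomial.eval ![Q.1, Q.2] (F₀ + poly a) = 0) := by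
        ext a
        rw [Finset.mem_union, Finset.mem_filter, Finset.mem_filter, Finset.mem_filter]
        constructor
        · rintro ⟨ha, P, hP⟩
          by_cases h : ∃ Q : ℤ × ℤ, P ≠ Q ∧ MvPolynomial.eval ![Q.1, Q.2] (F₀ + poly a) = 0
          · obtain ⟨Q, hPQ, hQ⟩ := h
            exact Or.inr ⟨ha, P, Q, hPQ, hP, hQ⟩
          · left
            refine ⟨ha, P, ?_⟩
            ext Q
            rw [Set.mem_singleton_iff]
            constructor
            · intro hQ
              by_contra hne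
              exact h ⟨Q, Ne.symm hne, hQ⟩
            · rintro rfl
              exact hP
        · rintro (⟨ha, P, hP⟩ | ⟨ha, P, Q, _, hP, _⟩)
          · refine ⟨ha, P, ?_⟩
            rw [hP]
            exact Set.mem_singleton P
          · exact ⟨ha, P, hP⟩
      rw [h6, Finset.card_union_of_disjoint]
      · push_cast
        rfl
      · rw [Finset.disjoint_left]
        intro a ha hb
        rw [Finset.mem_filter] at ha hb
        obtain ⟨_, P, hP⟩ := ha
        obtain ⟨_, Q, Q', hne, hQ, hQ'⟩ := hb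
        have h7 : Q ∈ Z (F₀ + poly a) := hQ
        have h8 : Q' ∈ Z (F₀ + poly a) := hQ'
        rw [hP, Set.mem_singleton_iff] at h7 h8
        exact hne (h7.trans h8.symm)
    have h9 : Tendsto (fun H : ℕ => count (e + 1) H (fun R => ∃ P, Z (F₀ + R) = {P}) /
        (2 * (H : ℝ) + 1) ^ n) atTop (𝓝 (∑' P, law (e + 1) P)) := by
      rw [← hn] at h3
      have h10 := hall.sub h3
      rw [sub_zero] at h10
      refine h10.congr fun H => ?_
      rw [← sub_div, h5 H, add_sub_cancel_right]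
    have h4 := h9.div hall hκ.ne'
    rw [div_self hκ.ne'] at h4
    refine h4.congr fun H => ?_
    exact div_div_div_cancel_right₀ (hX H).ne' _ _

end Pool.Agent.Results.MP_2d259b_nt.LimitLaw
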