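import Pool.Agent.R728.RC.Gen
import Pool.Agent.Results.MP_2d259b_nt.FewExceptionalCurves

/-!
# An explicit bound for the integer points of all plane curves in random residue classes

Let `d ≥ 4` and `N = (d + 1) (d + 2) / 2`. For every modulus `m` let `X m` be a random polynomial
modulo `m` of degree at most `d`, uniformly distributed or with `P (X m = g) ≤ A m ^ (-N)` (no
independence for different `m`: for instance the reductions of one random polynomial with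
coefficients in the profinite integers). Almost surely, for all but finitely many `m`, ALL
polynomials `F ≡ X m` modulo `m` of degree `d`, with coefficients at most `m ^ ρ` in absolute
value, irreducible over `ℚ` and with a squarefree leading form have no integer zero `(x, y)` with
`max (|x|, |y|) > ((d + 1) h (F)) ^ C`, where `C` is explicit and `ρ` is any number
`< (N - 1) / (4 d - 2)`; this is larger than `1` for `d ≥ 5`, and grows linearly with `d`.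
-/

set_option autoImplicit false

namespace Pool.Agent.Results.MP_2d259b_nt.RandomResidues

open MeasureTheory

/-- the sum of the absolute values of the coefficients -/
def len (F : MvPolynomial (Fin 2) ℤ) : ℕ := ∑ m ∈ F.support, (F.coeff m).natAbs

/-- the largest absolute value of the coefficients -/
def ht (F : MvPolynomial (Fin 2) ℤ) : ℕ := F.support.sup fun m => (F.coeff m).natAbs

/-- `F` has degree `d`, is irreducible over `ℚ` and its leading form is squarefree -/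
def Regular (d : ℕ) (F : MvPolynomial (Fin 2) ℤ) : Prop :=
  F.totalDegree = d ∧ Irreducible (MvPolynomial.map (Int.castRingHom ℚ) F) ∧
    Squarefree (MvPolynomial.map (Int.castRingHom ℚ) (MvPolynomial.homogeneousComponent d F))

/-- `F` has an integer zero beyond the explicit polynomial bound -/
def FarZero (d : ℕ) (F : MvPolynomial (Fin 2) ℤ) : Prop :=
  ∃ x y : ℤ, MvPolynomial.eval ![x, y] F = 0 ∧
    ((d + 1) * len F) ^ (10 ^ 11 * 36 ^ d * (d + 1) ^ 13) < max x.natAbs y.natAbs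

lemma coeff_le (F : MvPolynomial (Fin 2) ℤ) (m : Fin 2 →₀ ℕ) : (F.coeff m).natAbs ≤ ht F := by
  by_cases h : m ∈ F.support
  · exact Finset.le_sup (f := fun m => (F.coeff m).natAbs) h
  · rw [MvPolynomial.notMem_support_iff] at h
    rw [h]
    exact Nat.zero_le _

lemma ht_pos {d : ℕ} {F : MvPolynomial (Fin 2) ℤ} (h : Regular d F) : 1 ≤ ht F := by
  by_contra hcon
  have h0 : ht F = 0 := by omega
  have hF : F = 0 := by
    ext m
    have h1 := coeff_le F m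
    rw [h0] at h1
    rw [MvPolynomial.coeff_zero]
    exact Int.natAbs_eq_zero.1 (by omega)
  apply h.2.1.ne_zero
  rw [hF, map_zero]

instance : Countable (MvPolynomial (Fin 2) ℤ) := by
  rw [← Cardinal.mk_le_aleph0_iff]
  exact (MvPolynomial.cardinalMk_le_max).trans (by simp)

/-- the count of the exceptions -/
lemma count_bad {d : ℕ} (hd : 4 ≤ d) :
    ∀ ε : ℝ, 0 < ε → ∃ C : ℝ, ∀ B : ℝ, 1 ≤ B →
      {F : MvPolynomial (Fin 2) ℤ | F ∈ {F | Regular d F ∧ FarZero d F} ∧ (ht F : ℝ) ≤ B}.Finite ∧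
      (({F : MvPolynomial (Fin 2) ℤ | F ∈ {F | Regular d F ∧ FarZero d F} ∧
        (ht F : ℝ) ≤ B}.ncard : ℕ) : ℝ) ≤ C * B ^ (((4 * d - 2 : ℕ) : ℝ) + ε) := by
  intro ε hε
  refine ⟨(10 ^ 9 * 36 ^ d * (d + 1) ^ 8 : ℕ) * 3 ^ (4 * d - 2), fun B hB => ?_⟩
  obtain ⟨h1, h2⟩ := FewExceptionalCurves.result d hd ⌊B⌋₊
  have hfin : {F : MvPolynomial (Fin 2) ℤ | F.totalDegree ≤ d ∧
      ∀ m, |F.coeff m| ≤ ((⌊B⌋₊ : ℕ) : ℤ)}.Finite := by
    apply Set.finite_of_ncard_ne_zero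
    rw [h1]
    positivity
  have hco : ∀ F : MvPolynomial (Fin 2) ℤ, (ht F : ℝ) ≤ B → ∀ m, |F.coeff m| ≤ ((⌊B⌋₊ : ℕ) : ℤ) := by
    intro F hF m
    have h3 : ht F ≤ ⌊B⌋₊ := Nat.le_floor hF
    have h4 := (coeff_le F m).trans h3
    rw [Int.abs_eq_natAbs]
    exact_mod_cast h4
  have hsub : {F : MvPolynomial (Fin 2) ℤ | F ∈ {F | Regular d F ∧ FarZero d F} ∧
      (ht F : ℝ) ≤ B} ⊆ {F : MvPolynomial (Fin 2) ℤ | (F.totalDegree = d ∧
        ∀ m, |F.coeff m| ≤ ((⌊B⌋₊ : ℕ) : ℤ)) ∧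
      Irreducible (MvPolynomial.map (Int.castRingHom ℚ) F) ∧
      Squarefree (MvPolynomial.map (Int.castRingHom ℚ) (MvPolynomial.homogeneousComponent d F)) ∧
      ∃ x y : ℤ, MvPolynomial.eval ![x, y] F = 0 ∧
        ((d + 1) * ∑ m ∈ F.support, (F.coeff m).natAbs) ^ (10 ^ 11 * 36 ^ d * (d + 1) ^ 13)
          < max x.natAbs y.natAbs} := by
    rintro F ⟨⟨⟨g1, g2, g3⟩, g4⟩, g5⟩
    exact ⟨⟨g1, hco F g5⟩, g2, g3, g4⟩
  have hfin2 : {F : MvPolynomial (Fin 2) ℤ | (F.totalDegree = d ∧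
        ∀ m, |F.coeff m| ≤ ((⌊B⌋₊ : ℕ) : ℤ)) ∧
      Irreducible (MvPolynomial.map (Int.castRingHom ℚ) F) ∧
      Squarefree (MvPolynomial.map (Int.castRingHom ℚ) (MvPolynomial.homogeneousComponent d F)) ∧
      ∃ x y : ℤ, MvPolynomial.eval ![x, y] F = 0 ∧
        ((d + 1) * ∑ m ∈ F.support, (F.coeff m).natAbs) ^ (10 ^ 11 * 36 ^ d * (d + 1) ^ 13)
          < max x.natAbs y.natAbs}.Finite :=
    hfin.subset (fun F hF => ⟨hF.1.1.le, hF.1.2⟩)
  refine ⟨hfin2.subset hsub, ?_⟩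
  have h3 := (Set.ncard_le_ncard hsub hfin2).trans h2
  have hB0 : (0 : ℝ) ≤ B := by linarith
  calc (({F : MvPolynomial (Fin 2) ℤ | F ∈ {F | Regular d F ∧ FarZero d F} ∧
        (ht F : ℝ) ≤ B}.ncard : ℕ) : ℝ)
      ≤ ((10 ^ 9 * 36 ^ d * (d + 1) ^ 8 * (2 * ⌊B⌋₊ + 1) ^ (4 * d - 2) : ℕ) : ℝ) := by
        exact_mod_cast h3
    _ = ((10 ^ 9 * 36 ^ d * (d + 1) ^ 8 : ℕ) : ℝ) * ((2 * (⌊B⌋₊ : ℝ) + 1)) ^ (4 * d - 2) := by
        push_cast
        ring
    _ ≤ ((10 ^ 9 * 36 ^ d * (d + 1) ^ 8 : ℕ) : ℝ) * (3 * B) ^ (4 * d - 2) := by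
        have h4 := Nat.floor_le hB0
        gcongr
        linarith
    _ = (((10 ^ 9 * 36 ^ d * (d + 1) ^ 8 : ℕ) : ℝ) * 3 ^ (4 * d - 2)) * B ^ (4 * d - 2) := by
        rw [mul_pow]
        ring
    _ ≤ (((10 ^ 9 * 36 ^ d * (d + 1) ^ 8 : ℕ) : ℝ) * 3 ^ (4 * d - 2)) *
          B ^ (((4 * d - 2 : ℕ) : ℝ) + ε) := by
        gcongr
        rw [← Real.rpow_natCast]
        exact Real.rpow_le_rpow_of_exponent_le hB (by linarith)

/-- the general statement, with the range `ht F ≤ m ^ ρ` -/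
lemma general {d : ℕ} (hd : 4 ≤ d) {𝓜 : Set ℕ} {s θ A ρ : ℝ} {Ω : Type} [MeasurableSpace Ω]
    {P : Measure Ω} {Y : ℕ → Type} {X : ∀ m : ℕ, Ω → Y m}
    {φ : ∀ m : ℕ, MvPolynomial (Fin 2) ℤ → Y m}
    (h0 : ∀ m ∈ 𝓜, 0 < m) (hs : s < θ) (hsum : Summable fun m : 𝓜 => ((m : ℕ) : ℝ) ^ (-s))
    (hX : ∀ m ∈ 𝓜, ∀ r : Y m, P {ω | X m ω = r} ≤ ENNReal.ofReal (A * (m : ℝ) ^ (-θ)))
    (hρ : 0 < ρ) (hρ2 : ρ * (4 * d - 2) < θ - s) :
    ∀ᵐ ω ∂P, {x : ℕ × MvPolynomial (Fin 2) ℤ | x.1 ∈ 𝓜 ∧ (Regular d x.2 ∧ FarZero d x.2) ∧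
      (ht x.2 : ℝ) ≤ (x.1 : ℝ) ^ ρ ∧ φ x.1 x.2 = X x.1 ω}.Finite := by
  have hcast : ((4 * d - 2 : ℕ) : ℝ) = 4 * d - 2 := by
    rw [Nat.cast_sub (by omega)]
    push_cast
    ring
  have hmain := Pool.Agent.R728.RC.finite_gen (H := fun F : MvPolynomial (Fin 2) ℤ => (ht F : ℝ))
    (Bad := {F | Regular d F ∧ FarZero d F}) (φ := φ) (τ := 1 / ρ)
    (fun F hF => by exact_mod_cast ht_pos hF.1) (Nat.cast_nonneg _) (count_bad hd) h0 hs hsum hX
    (by
      rw [hcast, mul_one_div, lt_div_iff₀ hρ]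
      linarith)
  filter_upwards [hmain] with ω hω
  refine hω.subset ?_
  rintro ⟨m, F⟩ ⟨h1, h2, h3, h4⟩
  refine ⟨h1, h2, ?_, h4⟩
  have h5 : (0 : ℝ) ≤ (m : ℝ) := Nat.cast_nonneg m
  calc (ht F : ℝ) ^ (1 / ρ) ≤ ((m : ℝ) ^ ρ) ^ (1 / ρ) :=
        Real.rpow_le_rpow (Nat.cast_nonneg _) h3 (by positivity)
    _ = m := by
        rw [← Real.rpow_mul h5, mul_one_div_cancel hρ.ne', Real.rpow_one]

/-- **Theorem.** Let `d ≥ 4`.

(1) Let `𝓜` be a set of positive integers with a convergent sum of the `m ^ (-s)`, let `X m` be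
random elements of arbitrary sets `Y m`, each value of which has probability at most
`A m ^ (-θ)`, where `s < θ` (no independence is assumed), and let `φ m` be any maps from the
polynomials to `Y m`; let `ρ > 0` and `ρ (4 d - 2) < θ - s`. Almost surely there are only finitely
many pairs of `m` in `𝓜` and `F` with all coefficients at most `m ^ ρ` in absolute value and
`φ m F = X m`, such that `F` has degree `d`, is irreducible over `ℚ`, has a squarefree leading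
form, and has an integer zero `(x, y)` with `max (|x|, |y|) > ((d + 1) h (F)) ^ C`,
`C = 10 ^ 11 * 36 ^ d * (d + 1) ^ 13`, `h (F)` the sum of the absolute values of the coefficients.

(2) In particular let `X m` be random polynomials modulo `m` with
`P (X m = g) ≤ A m ^ (-(d + 1) (d + 2) / 2)` for all `m ≥ 1` and all `g`, and
`0 < ρ < ((d + 1) (d + 2) / 2 - 1) / (4 d - 2)`. Almost surely there is `m₀` such that for all
`m ≥ m₀` all `F ≡ X m` modulo `m` of degree `d` with coefficients at most `m ^ ρ` in absolute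
value, irreducible over `ℚ` and with a squarefree leading form have all their integer zeros
bounded by `((d + 1) h (F)) ^ C`. -/
theorem result (d : ℕ) (hd : 4 ≤ d) :
    (∀ (𝓜 : Set ℕ) (s θ A ρ : ℝ) (Ω : Type) [MeasurableSpace Ω] (P : Measure Ω) (Y : ℕ → Type)
      (X : ∀ m : ℕ, Ω → Y m) (φ : ∀ m : ℕ, MvPolynomial (Fin 2) ℤ → Y m),
      (∀ m ∈ 𝓜, 0 < m) → s < θ → (Summable fun m : 𝓜 => ((m : ℕ) : ℝ) ^ (-s)) →
      (∀ m ∈ 𝓜, ∀ r : Y m, P {ω | X m ω = r} ≤ ENNReal.ofReal (A * (m : ℝ) ^ (-θ))) →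
      0 < ρ → ρ * (4 * d - 2) < θ - s →
      ∀ᵐ ω ∂P, {x : ℕ × MvPolynomial (Fin 2) ℤ | x.1 ∈ 𝓜 ∧ (Regular d x.2 ∧ FarZero d x.2) ∧
        (ht x.2 : ℝ) ≤ (x.1 : ℝ) ^ ρ ∧ φ x.1 x.2 = X x.1 ω}.Finite) ∧
    ∀ (A ρ : ℝ) (Ω : Type) [MeasurableSpace Ω] (P : Measure Ω)
      (X : ∀ m : ℕ, Ω → MvPolynomial (Fin 2) (ZMod m)),
      (∀ m : ℕ, 0 < m → ∀ g : MvPolynomial (Fin 2) (ZMod m), P {ω | X m ω = g} ≤
        ENNReal.ofReal (A * (m : ℝ) ^ (-(((d : ℝ) + 1) * (d + 2) / 2)))) →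
      0 < ρ → ρ < (((d : ℝ) + 1) * (d + 2) / 2 - 1) / (4 * d - 2) →
      ∀ᵐ ω ∂P, ∃ m₀ : ℕ, ∀ m : ℕ, m₀ ≤ m → ∀ F : MvPolynomial (Fin 2) ℤ,
        MvPolynomial.map (Int.castRingHom (ZMod m)) F = X m ω → Regular d F →
        (ht F : ℝ) ≤ (m : ℝ) ^ ρ → ∀ x y : ℤ, MvPolynomial.eval ![x, y] F = 0 →
        max x.natAbs y.natAbs ≤ ((d + 1) * len F) ^ (10 ^ 11 * 36 ^ d * (d + 1) ^ 13) := by
  refine ⟨fun 𝓜 s θ A ρ Ω _ P Y X φ h0 hs hsum hX hρ hρ2 =>
    general hd h0 hs hsum hX hρ hρ2, fun A ρ Ω _ P X hX hρ hρ2 => ?_⟩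
  have hd4 : (4 : ℝ) ≤ d := by exact_mod_cast hd
  have hpos : (0 : ℝ) < 4 * d - 2 := by linarith
  rw [lt_div_iff₀ hpos] at hρ2
  set N : ℝ := ((d : ℝ) + 1) * (d + 2) / 2 with hN
  set s : ℝ := (1 + (N - ρ * (4 * d - 2))) / 2 with hs
  have hmain := general (𝓜 := {m : ℕ | 0 < m}) (s := s) (θ := N) (ρ := ρ) (X := X)
    (φ := fun m F => MvPolynomial.map (Int.castRingHom (ZMod m)) F) hd (fun m hm => hm)
    (by have := mul_pos hρ hpos; linarith)
    (Pool.Agent.R728.RC.summable_all (by linarith)) (fun m hm r => hX m hm r) hρ (by linarith)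
  filter_upwards [hmain] with ω hω
  obtain ⟨M, hM⟩ := (hω.image Prod.fst).bddAbove
  refine ⟨M + 1, fun m hm F hF hreg hht x y hxy => ?_⟩
  by_contra hcon
  push Not at hcon
  have h1 : m ≤ M := hM ⟨(m, F), ⟨by show 0 < m; omega, ⟨hreg, x, y, hxy, hcon⟩, hht, hF⟩, rfl⟩
  omega

end Pool.Agent.Results.MP_2d259b_nt.RandomResidues
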