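import Pool.Agent.Results.MP_2d259b_nt.FibresOffPolynomialValues
import Pool.Agent.R482.ST.Star

/-!
# Effective bounds for the integer points on all fibres `F(x, y) = t`, `t` near powers, orbits, ...

Let `f_n`, `n = 0, 1, 2, …`, be positive functions on `(a, ∞)`, `a ≥ 0`, such that `f_n(s) / s` is nondecreasing and
such that the sequence `f_n(s)` has exponent of convergence at most `τ` for each `s > a`: for instance
`f_n(s) = s ^ (v_n)` for exponents `v_n ≥ 1` (`τ = 0`), the orbits `f_n(s) = g (g (⋯ g (s)))` of any map `g` with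
`g(s) > s` and `g(s) / s` nondecreasing (`τ = 0`), and `f_n(s) = v_n s`. Let `d ≥ 4` and `θ < 1`. There is ONE set `E` of
Hausdorff dimension at most `(1 / d + τ) / (1 - θ)` such that for each `α > a` outside `E`, for ALL polynomials
`F ∈ ℤ[x, y]` of degree `m ≥ d` with squarefree leading form, each `c` and all but finitely many `n`, for ALL integers `t`
with `||t| - f_n(α)| ≤ c f_n(α) ^ θ` all integer points of the curve `F(x, y) = t` are bounded by an explicit power of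
`h(F) + |t|`.
-/

set_option autoImplicit false

namespace Pool.Agent.Results.MP_2d259b_nt.StarshapedFibres

/-- the functions `f n` are positive on `(a, ∞)`, `a ≥ 0`, and `f n x / x` is nondecreasing there -/
def Starshaped (a : ℝ) (f : ℕ → ℝ → ℝ) : Prop :=
  0 ≤ a ∧ ∀ n : ℕ, ∀ x y : ℝ, a < x → x ≤ y → 0 < f n x ∧ f n x / x ≤ f n y / y

/-- for each `x > a` the exponent of convergence of the sequence `f n x` is at most `τ` -/
def ExpLe (a : ℝ) (f : ℕ → ℝ → ℝ) (τ : ℝ) : Prop :=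
  ∀ x : ℝ, a < x → ∀ t : ℝ, τ < t → Summable (fun n : ℕ => (f n x) ^ (-t))

/-- the bound `((m + 1) (h(F) + |t|)) ^ (10 ^ 17 * 1296 ^ m * (m + 1) ^ 15)` for the integer points of the curve
`F(x, y) = t`; here `m` is the degree of `F` and `h(F)` is the sum of the absolute values of the coefficients of `F` -/
noncomputable def bound (F : MvPolynomial (Fin 2) ℤ) (t : ℤ) : ℕ :=
  ((F.totalDegree + 1) * (∑ m ∈ F.support, (F.coeff m).natAbs + t.natAbs)) ^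
    (10 ^ 17 * 1296 ^ F.totalDegree * (F.totalDegree + 1) ^ 15)

/-- the `t` for which the curve `F(x, y) = t` has a larger integer point -/
def Exc (F : MvPolynomial (Fin 2) ℤ) : Set ℤ :=
  {t : ℤ | ∃ x y : ℤ, MvPolynomial.eval ![x, y] F = t ∧ bound F t < max x.natAbs y.natAbs}

lemma count (d : ℕ) (hd : 4 ≤ d) (F : MvPolynomial (Fin 2) ℤ) (hF : d ≤ F.totalDegree)
    (hsq : Squarefree (MvPolynomial.map (Int.castRingHom ℚ)
      (MvPolynomial.homogeneousComponent F.totalDegree F))) (ε : ℝ) (hε : 0 < ε) : ∃ C : ℝ, ∀ X : ℝ, 1 ≤ X →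
    {k | k ∈ Exc F ∧ |(k : ℝ)| ≤ X}.Finite ∧
      ({k | k ∈ Exc F ∧ |(k : ℝ)| ≤ X}.ncard : ℝ) ≤ C * X ^ (1 / (d : ℝ) + ε) := by
  obtain ⟨-, h2⟩ := FibresOffPolynomialValues.result F.totalDegree (hd.trans hF) F rfl hsq
  obtain ⟨m', hm'⟩ : ∃ m', m' = F.totalDegree := ⟨_, rfl⟩
  rw [← hm'] at hF
  obtain ⟨N, hN⟩ : ∃ N : ℕ, N = 10 ^ 9 * 36 ^ F.totalDegree * (F.totalDegree + 1) ^ 9 := ⟨_, rfl⟩
  refine ⟨5 * N, fun X hX => ?_⟩
  have hX0 : 0 < X := by linarith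
  have hd0 : (0 : ℝ) < d := by exact_mod_cast (by omega : 0 < d)
  have hm0 : (0 : ℝ) < m' := by exact_mod_cast (by omega : 0 < m')
  have hb : ∀ P : ℤ → Prop, {k : ℤ | P k ∧ |(k : ℝ)| ≤ X}.Finite := by
    intro P
    refine (Set.finite_Icc (-⌊X⌋) ⌊X⌋).subset ?_
    rintro k ⟨-, h1⟩
    rw [abs_le] at h1
    rw [Set.mem_Icc]
    constructor
    · rw [neg_le]
      apply Int.le_floor.2
      push_cast
      linarith [h1.1]
    · exact Int.le_floor.2 h1.2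
  refine ⟨hb _, ?_⟩
  obtain ⟨ρ, hρ⟩ : ∃ ρ : ℝ, ρ = X ^ (1 / (m' : ℝ)) := ⟨_, rfl⟩
  have hρ1 : 1 ≤ ρ := by
    rw [hρ]
    exact Real.one_le_rpow hX (by positivity)
  have hρp : ρ ^ m' = X := by
    rw [hρ, ← Real.rpow_natCast, ← Real.rpow_mul hX0.le, one_div_mul_cancel hm0.ne', Real.rpow_one]
  obtain ⟨M, hM⟩ : ∃ M : ℕ, M = ⌈ρ⌉₊ := ⟨_, rfl⟩
  have hM1 : ρ ≤ M := by rw [hM]; exact Nat.le_ceil _
  have hM2 : (M : ℝ) ≤ ρ + 1 := by
    rw [hM]
    exact (Nat.ceil_lt_add_one (by linarith)).le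
  have h3 := h2 M
  rw [← hN] at h3
  have hsub : {k | k ∈ Exc F ∧ |(k : ℝ)| ≤ X} ⊆ {t : ℤ | |t| ≤ (M : ℤ) ^ F.totalDegree ∧
      ∃ x y : ℤ, MvPolynomial.eval ![x, y] F = t ∧
        ((F.totalDegree + 1) * (∑ m ∈ F.support, (F.coeff m).natAbs + t.natAbs)) ^
          (10 ^ 17 * 1296 ^ F.totalDegree * (F.totalDegree + 1) ^ 15) < max x.natAbs y.natAbs} := by
    rintro k ⟨h4, h5⟩
    refine ⟨?_, h4⟩
    have h6 : (|k| : ℝ) ≤ (M : ℝ) ^ F.totalDegree := by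
      rw [← hm']
      refine h5.trans ?_
      rw [← hρp]
      exact pow_le_pow_left₀ (by linarith) hM1 _
    exact_mod_cast h6
  have h7 : ({k | k ∈ Exc F ∧ |(k : ℝ)| ≤ X}.encard) ≤ ((N * (2 * M + 1) : ℕ) : ℕ∞) :=
    (Set.encard_le_encard hsub).trans h3
  rw [← (hb _).cast_ncard_eq] at h7
  have h8 : {k | k ∈ Exc F ∧ |(k : ℝ)| ≤ X}.ncard ≤ N * (2 * M + 1) := by exact_mod_cast h7
  have h9 : ({k | k ∈ Exc F ∧ |(k : ℝ)| ≤ X}.ncard : ℝ) ≤ N * (2 * M + 1) := by exact_mod_cast h8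
  have h10 : ρ ≤ X ^ (1 / (d : ℝ) + ε) := by
    rw [hρ]
    apply Real.rpow_le_rpow_of_exponent_le hX
    have : 1 / (m' : ℝ) ≤ 1 / (d : ℝ) := one_div_le_one_div_of_le hd0 (by exact_mod_cast hF)
    linarith
  have hN0 : (0 : ℝ) ≤ N := Nat.cast_nonneg _
  calc ({k | k ∈ Exc F ∧ |(k : ℝ)| ≤ X}.ncard : ℝ) ≤ N * (2 * M + 1) := h9
    _ ≤ N * (5 * ρ) := by
        apply mul_le_mul_of_nonneg_left _ hN0
        linarith
    _ ≤ N * (5 * X ^ (1 / (d : ℝ) + ε)) := by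
        apply mul_le_mul_of_nonneg_left _ hN0
        linarith
    _ = 5 * N * X ^ (1 / (d : ℝ) + ε) := by ring

/-- **Theorem.** Let `f` be starshaped functions on `(a, ∞)` of exponent of convergence at most `τ ≥ 0`, let `θ < 1` and
`d ≥ 4`. There is a set `E` of Hausdorff dimension at most `(1 / d + τ) / (1 - θ)` such that for each `α > a` outside `E`,
for all `F ∈ ℤ[x, y]` of degree at least `d` with squarefree leading form, each `c` and all but finitely many `n`, for ALL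
integers `t` with `||t| - f_n(α)| ≤ c f_n(α) ^ θ` all integer points `(x, y)` of `F(x, y) = t` satisfy
`max(|x|, |y|) ≤ bound F t`. The functions `v_n x`, `v_n > 0`, are starshaped on `(0, ∞)`, of exponent `τ` if `v` has
exponent of convergence at most `τ`; the functions `x ^ (v_n)`, `v_n ≥ 1`, are starshaped on `(1, ∞)`, of exponent `0` if
the sums of `exp (-t v_n)` converge for `t > 0`; and the iterates of a map `g` with `g(x) > x` for `x > a` and `g(x) / x`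
nondecreasing are starshaped on `(a, ∞)`, of exponent `0`. -/
theorem result :
    (∀ (d : ℕ) (a : ℝ) (f : ℕ → ℝ → ℝ) (τ θ : ℝ), 4 ≤ d → Starshaped a f → 0 ≤ τ → ExpLe a f τ → θ < 1 →
      ∃ E : Set ℝ, dimH E ≤ ENNReal.ofReal ((1 / (d : ℝ) + τ) / (1 - θ)) ∧ ∀ α : ℝ, a < α → α ∉ E →
        ∀ F : MvPolynomial (Fin 2) ℤ, d ≤ F.totalDegree → Squarefree (MvPolynomial.map (Int.castRingHom ℚ)
          (MvPolynomial.homogeneousComponent F.totalDegree F)) → ∀ c : ℝ, ∃ n₀ : ℕ, ∀ n : ℕ, n₀ ≤ n →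
        ∀ t : ℤ, |(|t| : ℝ) - f n α| ≤ c * (f n α) ^ θ →
          ∀ x y : ℤ, MvPolynomial.eval ![x, y] F = t → max x.natAbs y.natAbs ≤ bound F t) ∧
    (∀ (v : ℕ → ℝ) (τ : ℝ), (∀ n, 0 < v n) → (∀ t : ℝ, τ < t → Summable (fun n : ℕ => (v n) ^ (-t))) →
      Starshaped 0 (fun n x => v n * x) ∧ ExpLe 0 (fun n x => v n * x) τ) ∧
    (∀ v : ℕ → ℝ, (∀ n, 1 ≤ v n) → (∀ t : ℝ, 0 < t → Summable fun n : ℕ => Real.exp (-(t * v n))) →
      Starshaped 1 (fun n x => x ^ (v n)) ∧ ExpLe 1 (fun n x => x ^ (v n)) 0) ∧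
    (∀ (a : ℝ) (g : ℝ → ℝ), 0 ≤ a → (∀ x y : ℝ, a < x → x ≤ y → g x / x ≤ g y / y) → (∀ x : ℝ, a < x → x < g x) →
      Starshaped a (fun n x => g^[n] x) ∧ ExpLe a (fun n x => g^[n] x) 0) := by
  refine ⟨fun d a f τ θ hd hf hτ hE hθ1 => ?_, Pool.Agent.R482.ST.ex_mul, Pool.Agent.R482.ST.ex_pow,
    Pool.Agent.R482.ST.ex_orbit⟩
  obtain ⟨I, hI⟩ : ∃ I : Set (MvPolynomial (Fin 2) ℤ), I = {F | d ≤ F.totalDegree ∧
    Squarefree (MvPolynomial.map (Int.castRingHom ℚ)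
      (MvPolynomial.homogeneousComponent F.totalDegree F))} := ⟨_, rfl⟩
  have key : ∀ F : MvPolynomial (Fin 2) ℤ, ∃ E : Set ℝ,
      dimH E ≤ ENNReal.ofReal ((1 / (d : ℝ) + τ) / (1 - θ)) ∧ (F ∈ I → ∀ α : ℝ, a < α → α ∉ E → ∀ c : ℝ,
      ∃ n₀ : ℕ, ∀ n : ℕ, n₀ ≤ n → ∀ t ∈ Exc F, c * (f n α) ^ θ < |(|(t : ℝ)|) - f n α|) := by
    intro F
    by_cases hFI : F ∈ I
    · rw [hI] at hFI
      obtain ⟨E, h1, h2⟩ := Pool.Agent.R482.ST.windows (Exc F) (fun k : ℤ => |(k : ℝ)|) hf hτ hE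
        (s := 1 / (d : ℝ)) (by positivity) hθ1 (count d hd F hFI.1 hFI.2)
      exact ⟨E, h1, fun _ => h2⟩
    · exact ⟨∅, by simp, fun h => absurd h hFI⟩
  choose E h1 h2 using key
  have hcount : Countable (MvPolynomial (Fin 2) ℤ) := by
    apply Cardinal.mk_le_aleph0_iff.1
    refine (MvPolynomial.cardinalMk_le_max (σ := Fin 2) (R := ℤ)).trans ?_
    simp
  refine ⟨⋃ F, E F, ?_, fun α hα hαE F hFd hFs c => ?_⟩
  · rw [dimH_iUnion]
    exact iSup_le h1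
  · obtain ⟨n₀, hn⟩ := h2 F (by rw [hI]; exact ⟨hFd, hFs⟩) α hα
      (fun h => hαE (Set.mem_iUnion.2 ⟨F, h⟩)) c
    refine ⟨n₀, fun n hn1 t hw x y hxy => ?_⟩
    by_contra hcon
    push Not at hcon
    exact absurd (hn n hn1 t ⟨x, y, hxy, hcon⟩) (not_lt.2 hw)

end Pool.Agent.Results.MP_2d259b_nt.StarshapedFibres
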